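import Pool.Agent.Run7.h242.SC.Iface

/-!
# Pieces FKX and FKL of project SC (helper242)
-/

set_option autoImplicit false

namespace Run7.h416.SC

open MeasureTheory Set Filter Topology Metric
open scoped ContDiff ENNReal NNReal
open Run7.h242.SC

lemma V_pos (j : ℕ) : 0 < V j := by
  unfold V
  positivity

lemma V_le (j : ℕ) : V j ≤ 1 / 32 := by
  unfold V
  have h : (1 / 2 : ℝ) ^ j ≤ 1 := pow_le_one₀ (by norm_num) (by norm_num)
  linarith

lemma V_anti {i j : ℕ} (h : i ≤ j) : V j ≤ V i := by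
  unfold V
  have h1 : (1 / 2 : ℝ) ^ j ≤ (1 / 2 : ℝ) ^ i := pow_le_pow_of_le_one (by norm_num) (by norm_num) h
  linarith

lemma V_sg (k i : ℕ) : V (sg k i) ≤ V i := by
  unfold sg
  split_ifs with h1 h2
  · subst h1
    exact V_anti (Nat.zero_le _)
  · exact le_refl _
  · exact V_anti (Nat.le_succ _)

/-- real part of the centre -/
noncomputable def Qr (j : ℕ) : ℝ := if j = 0 then -1 else (1 / 2) ^ j

lemma Q_eq (j : ℕ) : Q j = ((Qr j : ℝ) : ℂ) := by
  unfold Q Qr q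
  split_ifs <;> simp

lemma sep_lt {i j : ℕ} (h : i < j) : Qr i + V i ≤ Qr j - V j ∨ Qr j + V j ≤ Qr i - V i := by
  rcases Nat.eq_zero_or_pos i with hi | hi
  · left
    subst hi
    have h1 := V_le 0
    have h2 := V_pos j
    have h3 : V j = (1 / 2 : ℝ) ^ j / 32 := rfl
    have h4 : Qr 0 = -1 := by simp [Qr]
    have h5 : Qr j = (1 / 2 : ℝ) ^ j := by
      unfold Qr
      rw [if_neg (by omega)]
    rw [h4, h5]
    linarith
  · right
    have h4 : Qr i = (1 / 2 : ℝ) ^ i := by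
      unfold Qr
      rw [if_neg (by omega)]
    have h5 : Qr j = (1 / 2 : ℝ) ^ j := by
      unfold Qr
      rw [if_neg (by omega)]
    have h6 : (1 / 2 : ℝ) ^ j ≤ (1 / 2 : ℝ) ^ (i + 1) :=
      pow_le_pow_of_le_one (by norm_num) (by norm_num) h
    have h7 : (0 : ℝ) < (1 / 2 : ℝ) ^ j := by positivity
    rw [pow_succ] at h6
    rw [h4, h5]
    unfold V
    linarith

lemma sepQ {i j : ℕ} (h : i ≠ j) : Qr i + V i ≤ Qr j - V j ∨ Qr j + V j ≤ Qr i - V i := by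
  rcases lt_or_gt_of_ne h with h1 | h1
  · exact sep_lt h1
  · exact (sep_lt h1).symm

lemma Sig_re (i : ℕ) (p : ℂ × ℝ) : (Sig i p).1.re = Qr i + V i * p.1.re := by
  unfold Sig
  rw [Q_eq]
  simp

lemma Sig_snd (i : ℕ) (p : ℂ × ℝ) : (Sig i p).2 = p.2 := rfl

lemma Sig_re_lt {i : ℕ} {p : ℂ × ℝ} (hp : p ∈ T3) :
    Qr i - V i < (Sig i p).1.re ∧ (Sig i p).1.re < Qr i + V i := by
  rw [Sig_re]
  have h := V_pos i
  obtain ⟨h1, h2⟩ := abs_lt.1 hp.1
  constructor <;> nlinarith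

lemma Sig_inj {i j : ℕ} {p p' : ℂ × ℝ} (hp : p ∈ T3) (hp' : p' ∈ T3) (h : Sig i p = Sig j p') :
    i = j ∧ p = p' := by
  have hij : i = j := by
    by_contra hne
    obtain ⟨a1, a2⟩ := Sig_re_lt (i := i) hp
    obtain ⟨b1, b2⟩ := Sig_re_lt (i := j) hp'
    rw [h] at a1 a2
    rcases sepQ hne with h1 | h1 <;> linarith
  refine ⟨hij, ?_⟩
  subst hij
  have h1 : (Sig i p).1 = (Sig i p').1 := by rw [h]
  have h2 : (Sig i p).2 = (Sig i p').2 := by rw [h]
  have hv : (V i : ℂ) ≠ 0 := by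
    exact_mod_cast (V_pos i).ne'
  have h3 : p.1 = p'.1 := by
    have h4 : (V i : ℂ) * p.1 = (V i : ℂ) * p'.1 := by
      simpa [Sig] using h1
    exact mul_left_cancel₀ hv h4
  exact Prod.ext h3 h2

lemma ep_norm (i : ℕ) : ‖ep i‖ = 1 := by
  unfold ep
  split_ifs <;> simp

lemma ep_re (i : ℕ) (z : ℂ) : |(ep i * z).re| = |z.re| := by
  unfold ep
  split_ifs <;> simp

lemma ep_im (i : ℕ) (z : ℂ) : |(ep i * z).im| = |z.im| := by
  unfold ep
  split_ifs <;> simp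

/-- the two formulas agree at level `0` -/
lemma door {C : ℝ≥0} {k : ℕ} {ψ : ℂ → ℂ} (hG : S_GAMB) (hψ : Good C k ψ)
    (i : ℕ) (p : ℂ × ℝ) (hp : p ∈ T3) (h0 : p.2 = 0) :
    cone ψ (Sig i p) = Gam (V (sg k i)) (q (sg k i)) (ep i * p.1, p.2) := by
  obtain ⟨-, -, -, h1, h2, h3⟩ := hψ
  have hre : |p.1.re| ≤ 1 := hp.1.le
  have him : |p.1.im| ≤ 1 := hp.2.1.le
  have hg := (hG (V (sg k i)) (V_pos _) (V_le _) (q (sg k i)) (ep i * p.1, p.2)
    (by simpa only [ep_re] using hre) (by simpa only [ep_im] using him)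
    (by simp only [h0]; norm_num)).1 (by simp only [h0]; norm_num)
  rw [hg]
  have e1 : cone ψ (Sig i p) = (ψ (Q i + (V i : ℂ) * p.1), 0) := by
    unfold cone
    simp [Sig, h0]
  rw [e1]
  refine Prod.ext ?_ (by simp [h0])
  simp only
  by_cases hi : i = 0
  · subst hi
    have e2 : Q 0 = -1 := by simp [Q]
    have e3 : sg k 0 = k := by simp [sg]
    have e4 : ep 0 = -1 := by simp [ep]
    rw [e2, e3, e4, h3 p.1 hre him]
    ring
  · have e2 : Q i = q i := by simp [Q, hi]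
    have e4 : ep i = 1 := by simp [ep, hi]
    rw [e2, e4, one_mul]
    by_cases hik : i < k
    · have e3 : sg k i = i := by simp [sg, hi, hik]
      rw [e3, h1 i (by omega) hik p.1 hre him]
    · have e3 : sg k i = i + 1 := by simp [sg, hi, hik]
      rw [e3, h2 i (by omega) p.1 hre him]

open Classical in
theorem t_FKX : S_FKX := by
  intro hG C k ψ hk hψ
  refine ⟨fun p => if p.2 ≤ 0 then cone ψ p else
    if h : ∃ a : ℕ × (ℂ × ℝ), a.2 ∈ T3 ∧ Sig a.1 a.2 = p then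
      Gam (V (sg k h.choose.1)) (q (sg k h.choose.1)) (ep h.choose.1 * h.choose.2.1, h.choose.2.2)
    else p, ?_, ?_⟩
  · intro p _ h2
    simp only [if_pos h2]
  · intro i p hp h0
    by_cases h1 : p.2 ≤ 0
    · have h2 : p.2 = 0 := le_antisymm h1 h0
      have h3 : (Sig i p).2 ≤ 0 := by rw [Sig_snd]; exact h1
      simp only [if_pos h3]
      exact door hG hψ i p hp h2
    · have h3 : ¬ (Sig i p).2 ≤ 0 := by rw [Sig_snd]; exact h1
      have h4 : ∃ a : ℕ × (ℂ × ℝ), a.2 ∈ T3 ∧ Sig a.1 a.2 = Sig i p := ⟨(i, p), hp, rfl⟩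
      simp only [if_neg h3, dif_pos h4]
      obtain ⟨h5, h6⟩ := h4.choose_spec
      obtain ⟨h7, h8⟩ := Sig_inj h5 hp h6
      rw [h7, h8]

lemma Om3_depth {x : ℂ × ℝ} (hx : x ∈ Om3) : -1 < x.2 := by
  rcases hx with hx | hx
  · exact hx.2.1
  · obtain ⟨i, hi⟩ := mem_iUnion.1 hx
    obtain ⟨p, hp, rfl⟩ := hi
    exact hp.2.2.1

lemma Om3_tube {x : ℂ × ℝ} (hx : x ∈ Om3) (h0 : 0 ≤ x.2) :
    ∃ (i : ℕ) (p : ℂ × ℝ), p ∈ T3 ∧ 0 ≤ p.2 ∧ x = Sig i p := by
  rcases hx with hx | hx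
  · exact absurd hx.2.2 (not_lt.2 h0)
  · obtain ⟨i, hi⟩ := mem_iUnion.1 hx
    obtain ⟨p, hp, rfl⟩ := hi
    exact ⟨i, p, hp, h0, rfl⟩

lemma same_tube_aux {s : Set (ℂ × ℝ)} (hs : Convex ℝ s) (hs' : s ⊆ Om3) {i j : ℕ}
    {p p' : ℂ × ℝ} (hp : p ∈ T3) (hp' : p' ∈ T3) (h0 : 0 ≤ p.2) (h0' : 0 ≤ p'.2)
    (hx : Sig i p ∈ s) (hy : Sig j p' ∈ s) (h : Qr i + V i ≤ Qr j - V j) : False := by
  obtain ⟨a1, a2⟩ := Sig_re_lt (i := i) hp
  obtain ⟨b1, b2⟩ := Sig_re_lt (i := j) hp'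
  have hlt : (Sig i p).1.re < (Sig j p').1.re := by linarith
  set t : ℝ := (Qr i + V i - (Sig i p).1.re) / ((Sig j p').1.re - (Sig i p).1.re) with ht
  have hd : 0 < (Sig j p').1.re - (Sig i p).1.re := by linarith
  have ht0 : 0 ≤ t := by
    rw [ht]
    apply div_nonneg <;> linarith
  have ht1 : t ≤ 1 := by
    rw [ht, div_le_one hd]
    linarith
  have hz := hs hx hy (sub_nonneg.2 ht1) ht0 (by ring)
  have hz2 : 0 ≤ ((1 - t) • Sig i p + t • Sig j p').2 := by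
    simp only [Prod.snd_add, Prod.smul_snd, Sig_snd, smul_eq_mul]
    have := sub_nonneg.2 ht1
    positivity
  obtain ⟨l, w, hw, -, hw'⟩ := Om3_tube (hs' hz) hz2
  have hre : ((1 - t) • Sig i p + t • Sig j p').1.re = Qr i + V i := by
    have e : ((1 - t) • Sig i p + t • Sig j p').1.re =
        (Sig i p).1.re + t * ((Sig j p').1.re - (Sig i p).1.re) := by
      simp only [Prod.fst_add, Prod.smul_fst, Complex.add_re, Complex.real_smul,
        Complex.re_ofReal_mul]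
      ring
    rw [e, ht, div_mul_cancel₀ _ hd.ne']
    ring
  obtain ⟨c1, c2⟩ := Sig_re_lt (i := l) hw
  rw [← hw', hre] at c1 c2
  by_cases hil : i = l
  · subst hil
    exact lt_irrefl _ c2
  · rcases sepQ hil with h1 | h1
    · linarith
    · have := V_pos i
      linarith

lemma same_tube {s : Set (ℂ × ℝ)} (hs : Convex ℝ s) (hs' : s ⊆ Om3) {i j : ℕ}
    {p p' : ℂ × ℝ} (hp : p ∈ T3) (hp' : p' ∈ T3) (h0 : 0 ≤ p.2) (h0' : 0 ≤ p'.2)
    (hx : Sig i p ∈ s) (hy : Sig j p' ∈ s) : i = j := by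
  by_contra hne
  rcases sepQ hne with h | h
  · exact same_tube_aux hs hs' hp hp' h0 h0' hx hy h
  · exact same_tube_aux hs hs' hp' hp h0' h0 hy hx h

theorem t_FKL (hL : S_GAML) (hC : S_CONE) : S_FKL := by
  intro C
  obtain ⟨C1, hC1⟩ := hC C
  obtain ⟨C2, hC2⟩ := hL
  refine ⟨C1 + Real.toNNReal (2 * C2), ?_⟩
  intro k ψ g hk hψ hg s hs hs'
  obtain ⟨hcone, -⟩ := hC1 ψ hψ.1 hψ.2.1 hψ.2.2.1
  have hC2' : 0 ≤ C2 ∨ C2 < 0 := le_or_gt 0 C2
  have hT : 0 ≤ ((Real.toNNReal (2 * C2) : ℝ≥0) : ℝ) := NNReal.coe_nonneg _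
  have hT' : 2 * C2 ≤ ((Real.toNNReal (2 * C2) : ℝ≥0) : ℝ) := Real.le_coe_toNNReal _
  have hC10 : 0 ≤ (C1 : ℝ) := NNReal.coe_nonneg _
  -- lower part
  have low : ∀ x ∈ s, ∀ y ∈ s, x.2 ≤ 0 → y.2 ≤ 0 → dist (g x) (g y) ≤ C1 * dist x y := by
    intro x hx y hy hx0 hy0
    have hx1 := Om3_depth (hs' hx)
    have hy1 := Om3_depth (hs' hy)
    rw [hg.1 x hx1 hx0, hg.1 y hy1 hy0]
    exact hcone.dist_le_mul x ⟨hx1, hx0⟩ y ⟨hy1, hy0⟩
  -- upper part
  have upp : ∀ x ∈ s, ∀ y ∈ s, 0 ≤ x.2 → 0 ≤ y.2 →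
      dist (g x) (g y) ≤ (Real.toNNReal (2 * C2) : ℝ≥0) * dist x y := by
    intro x hx y hy hx0 hy0
    obtain ⟨i, p, hp, hp0, rfl⟩ := Om3_tube (hs' hx) hx0
    obtain ⟨j, p', hp', hp0', rfl⟩ := Om3_tube (hs' hy) hy0
    have hij := same_tube hs hs' hp hp' hp0 hp0' hx hy
    subst hij
    rw [hg.2 i p hp hp0, hg.2 i p' hp' hp0', dist_eq_norm, dist_eq_norm]
    have hb := hC2 (V (sg k i)) (V_pos _) (V_le _) (q (sg k i)) (ep i * p.1, p.2)
      (ep i * p'.1, p'.2) (by simpa only [ep_re] using hp.1.le)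
      (by simpa only [ep_im] using hp.2.1.le) (by simpa only [ep_re] using hp'.1.le)
      (by simpa only [ep_im] using hp'.2.1.le) hp.2.2.1.le hp.2.2.2.1.le hp'.2.2.1.le
      hp'.2.2.2.1.le
    simp only at hb
    rw [← mul_sub, norm_mul, ep_norm, one_mul] at hb
    refine hb.trans ?_
    have e1 : ‖(Sig i p - Sig i p').1‖ = V i * ‖p.1 - p'.1‖ := by
      have : (Sig i p - Sig i p').1 = (V i : ℂ) * (p.1 - p'.1) := by
        simp only [Sig, Prod.fst_sub]
        ring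
      rw [this, norm_mul, Complex.norm_real, Real.norm_eq_abs, abs_of_pos (V_pos i)]
    have e2 : ‖(Sig i p - Sig i p').2‖ = |p.2 - p'.2| := by
      simp only [Sig, Prod.snd_sub, Real.norm_eq_abs]
    have f1 : V i * ‖p.1 - p'.1‖ ≤ ‖Sig i p - Sig i p'‖ := by
      rw [← e1]
      exact norm_fst_le _
    have f2 : |p.2 - p'.2| ≤ ‖Sig i p - Sig i p'‖ := by
      rw [← e2]
      exact norm_snd_le _
    have f3 : V (sg k i) * ‖p.1 - p'.1‖ ≤ V i * ‖p.1 - p'.1‖ :=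
      mul_le_mul_of_nonneg_right (V_sg k i) (norm_nonneg _)
    have f4 : 0 ≤ V (sg k i) * ‖p.1 - p'.1‖ := mul_nonneg (V_pos _).le (norm_nonneg _)
    have f5 := abs_nonneg (p.2 - p'.2)
    have f6 := norm_nonneg (Sig i p - Sig i p')
    rcases hC2' with h | h
    · calc C2 * (V (sg k i) * ‖p.1 - p'.1‖ + |p.2 - p'.2|)
          ≤ C2 * (‖Sig i p - Sig i p'‖ + ‖Sig i p - Sig i p'‖) := by
            apply mul_le_mul_of_nonneg_left _ h
            linarith
        _ = (2 * C2) * ‖Sig i p - Sig i p'‖ := by ring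
        _ ≤ _ := mul_le_mul_of_nonneg_right hT' f6
    · have g1 : C2 * (V (sg k i) * ‖p.1 - p'.1‖ + |p.2 - p'.2|) ≤ 0 :=
        mul_nonpos_of_nonpos_of_nonneg h.le (by linarith)
      exact g1.trans (mul_nonneg hT f6)
  -- mixed part
  have mix : ∀ x ∈ s, ∀ y ∈ s, x.2 ≤ 0 → 0 < y.2 →
      dist (g x) (g y) ≤ (C1 + (Real.toNNReal (2 * C2) : ℝ≥0)) * dist x y := by
    intro x hx y hy hx0 hy0
    set t : ℝ := -x.2 / (y.2 - x.2) with ht
    have hd : 0 < y.2 - x.2 := by linarith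
    have ht0 : 0 ≤ t := by
      rw [ht]
      apply div_nonneg <;> linarith
    have ht1 : t ≤ 1 := by
      rw [ht, div_le_one hd]
      linarith
    have hz := hs hx hy (sub_nonneg.2 ht1) ht0 (by ring)
    set z := (1 - t) • x + t • y with hzdef
    have hz0 : z.2 = 0 := by
      have e : z.2 = x.2 + t * (y.2 - x.2) := by
        rw [hzdef]
        simp only [Prod.snd_add, Prod.smul_snd, smul_eq_mul]
        ring
      rw [e, ht, div_mul_cancel₀ _ hd.ne']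
      ring
    have d1 : dist x z ≤ dist x y := by
      have e : x - z = t • (x - y) := by
        rw [hzdef]
        module
      rw [dist_eq_norm, e, norm_smul, Real.norm_eq_abs, abs_of_nonneg ht0, dist_eq_norm]
      exact mul_le_of_le_one_left (norm_nonneg _) ht1
    have d2 : dist z y ≤ dist x y := by
      have e : z - y = (1 - t) • (x - y) := by
        rw [hzdef]
        module
      rw [dist_eq_norm, e, norm_smul, Real.norm_eq_abs, abs_of_nonneg (sub_nonneg.2 ht1),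
        dist_eq_norm]
      exact mul_le_of_le_one_left (norm_nonneg _) (by linarith)
    calc dist (g x) (g y) ≤ dist (g x) (g z) + dist (g z) (g y) := dist_triangle _ _ _
      _ ≤ C1 * dist x z + (Real.toNNReal (2 * C2) : ℝ≥0) * dist z y :=
          add_le_add (low x hx z hz hx0 hz0.le) (upp z hz y hy hz0.ge hy0.le)
      _ ≤ C1 * dist x y + (Real.toNNReal (2 * C2) : ℝ≥0) * dist x y :=
          add_le_add (mul_le_mul_of_nonneg_left d1 hC10) (mul_le_mul_of_nonneg_left d2 hT)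
      _ = _ := by ring
  apply LipschitzOnWith.of_dist_le_mul
  intro x hx y hy
  have hD : 0 ≤ dist x y := dist_nonneg
  push_cast
  rcases le_or_gt x.2 0 with hx0 | hx0
  · rcases le_or_gt y.2 0 with hy0 | hy0
    · have := low x hx y hy hx0 hy0
      nlinarith
    · exact mix x hx y hy hx0 hy0
  · rcases le_or_gt y.2 0 with hy0 | hy0
    · have := mix y hy x hx hy0 hx0
      rw [dist_comm (g x), dist_comm x]
      exact this
    · have := upp x hx y hy hx0.le hy0.le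
      nlinarith

end Run7.h416.SC
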